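import Pool.Agent.H66.SG.T7
import Pool.Agent.H66.SG.S5

/-!
# MP_c59857_nt (sharp gap): row S6 of the board `sg_modules` (the parameters)
-/

set_option autoImplicit false

open MeasureTheory ProbabilityTheory Filter Topology Finset
open scoped Nat ENNReal

namespace Pool.Agent.H66.SG.S6

open Pool.Agent.H67.AG Pool.Agent.H75.AG Pool.Agent.H66.SG.S5
open Pool.Agent.H24.T2 (Pset)

section limits

theorem ul_le_c (hul : T_UL) (U : Ultrafilter ℕ) (f : ℕ → ℝ) (C a : ℝ) (h : ∀ n, |f n| ≤ C)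
    (hf : ∀ᶠ n in (U : Filter ℕ), f n ≤ a) : ul U f ≤ a := by
  obtain ⟨-, h2, -, -, h5⟩ := hul U
  have := h2 f (fun _ => a) ⟨C, h⟩ ⟨|a|, fun _ => le_refl _⟩ hf
  rwa [h5 a] at this

theorem ul_abs (hul : T_UL) (U : Ultrafilter ℕ) (f : ℕ → ℝ) (C : ℝ) (h : ∀ n, |f n| ≤ C) :
    |ul U f| ≤ C := by
  obtain ⟨-, h2, -, -, h5⟩ := hul U
  rw [abs_le]
  constructor
  · have := h2 (fun _ => -C) f ⟨|C|, fun _ => by rw [abs_neg]⟩ ⟨C, h⟩
      (Eventually.of_forall fun n => (abs_le.1 (h n)).1)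
    rwa [h5 (-C)] at this
  · exact ul_le_c hul U f C C h (Eventually.of_forall fun n => (abs_le.1 (h n)).2)

theorem avgP_abs (W m : ℕ) (F : ℕ → ℝ) (C : ℝ) (hC : 0 ≤ C) (h : ∀ p, |F p| ≤ C) :
    |avgP W m F| ≤ C := by
  unfold avgP
  rw [abs_div, Nat.abs_cast]
  refine div_le_of_le_mul₀ (Nat.cast_nonneg _) hC ?_
  refine (Finset.abs_sum_le_sum_abs _ _).trans ?_
  calc ∑ p ∈ Ps W m, |F p| ≤ ∑ p ∈ Ps W m, C := Finset.sum_le_sum fun p _ => h p
    _ = C * ((Ps W m).card : ℝ) := by rw [Finset.sum_const, nsmul_eq_mul, mul_comm]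

theorem avgP_affine (W m : ℕ) (F G : ℕ → ℝ) (a c : ℝ) (ha : 0 ≤ a)
    (h : ∀ p, F p ≤ a + c * G p) : avgP W m F ≤ a + c * avgP W m G := by
  unfold avgP
  rcases Nat.eq_zero_or_pos (Ps W m).card with h0 | h0
  · rw [h0]
    simpa using ha
  · have h1 : (0 : ℝ) < ((Ps W m).card : ℝ) := by exact_mod_cast h0
    rw [div_le_iff₀ h1]
    calc ∑ p ∈ Ps W m, F p ≤ ∑ p ∈ Ps W m, (a + c * G p) :=
          Finset.sum_le_sum fun p _ => h p
      _ = a * ((Ps W m).card : ℝ) + c * ∑ p ∈ Ps W m, G p := by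
          rw [Finset.sum_add_distrib, Finset.sum_const, nsmul_eq_mul, Finset.mul_sum]
          ring
      _ = (a + c * ((∑ p ∈ Ps W m, G p) / ((Ps W m).card : ℝ))) *
            ((Ps W m).card : ℝ) := by
          field_simp

end limits

section reference

variable (d : Sw)

theorem FF_meas (p : ℕ) (j : Fin d.k → Fin d.n) : Measurable (d.FF p j) := by
  unfold Sw.FF
  exact Finset.measurable_fun_prod _ fun i _ =>
    ((d.hy (j i)).1 i).comp (d.T'.measurable.iterate _)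

theorem FF_abs (p : ℕ) (j : Fin d.k → Fin d.n) (ω : d.Ω') : |d.FF p j ω| ≤ 1 := by
  unfold Sw.FF
  rw [Finset.abs_prod]
  refine Finset.prod_le_one (fun i _ => abs_nonneg _) fun i _ => ?_
  rcases (d.hy (j i)).2 i (d.T'^[(p - 1) * d.β i] ω) with h | h <;> rw [h] <;> norm_num

/-- difference of two ergodic averages of the products -/
noncomputable def hF (L L'' p : ℕ) (j : Fin d.k → Fin d.n) (ω : d.Ω') : ℝ :=
  Av d.T' d.W L (d.FF p j) ω - Av d.T' d.W L'' (d.FF p j) ω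

theorem hF_meas (L L'' p : ℕ) (j : Fin d.k → Fin d.n) : Measurable (hF d L L'' p j) :=
  (Av_meas _ _ _ _ (FF_meas d p j)).sub (Av_meas _ _ _ _ (FF_meas d p j))

theorem hF_abs (L L'' p : ℕ) (j : Fin d.k → Fin d.n) (ω : d.Ω') : |hF d L L'' p j ω| ≤ 2 := by
  have h1 := Av_abs d.T' d.W L _ (FF_abs d p j) ω
  have h2 := Av_abs d.T' d.W L'' _ (FF_abs d p j) ω
  unfold hF
  calc |Av d.T' d.W L (d.FF p j) ω - Av d.T' d.W L'' (d.FF p j) ω| ≤
        |Av d.T' d.W L (d.FF p j) ω| + |Av d.T' d.W L'' (d.FF p j) ω| := abs_sub _ _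
    _ ≤ 2 := by linarith

theorem hF_sq_abs (L L'' p : ℕ) (j : Fin d.k → Fin d.n) (ω : d.Ω') :
    |hF d L L'' p j ω ^ 2| ≤ 4 := by
  rw [abs_pow]
  have := hF_abs d L L'' p j ω
  nlinarith [abs_nonneg (hF d L L'' p j ω)]

theorem int_abs_C {Ω : Type} [MeasurableSpace Ω] (P : Measure Ω) [IsProbabilityMeasure P]
    (f : Ω → ℝ) (C : ℝ) (hf : ∀ ω, |f ω| ≤ C) (A : Set Ω) (hC : 0 ≤ C) :
    |∫ ω in A, f ω ∂P| ≤ C := by
  have h := norm_setIntegral_le_of_norm_le_const (μ := P) (s := A) (f := f) (C := C)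
    (measure_lt_top P A) (fun ω _ => by rw [Real.norm_eq_abs]; exact hf ω)
  rw [Real.norm_eq_abs] at h
  refine h.trans ?_
  have h1 : P.real A ≤ 1 := measureReal_le_one
  nlinarith [measureReal_nonneg (μ := P) (s := A)]

end reference

section extension

variable {d : Sw} (e : SwE d)

theorem comp_int (h : d.Ω' → ℝ) (hm : Measurable h) :
    ∫ ω, |h (e.g ω)| ∂e.P = ∫ ω, |h ω| ∂d.P' := by
  have hm' : Measurable fun ω => |h ω| := hm.abs
  rw [← e.fac.1.map_eq, integral_map e.fac.1.measurable.aemeasurable hm'.aestronglyMeasurable]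

theorem comp_integrable (h : d.Ω' → ℝ) (hi : Integrable h d.P') :
    Integrable (fun ω => h (e.g ω)) e.P :=
  e.fac.1.integrable_comp_of_integrable hi

theorem set_comp_le (h : d.Ω' → ℝ) (hm : Measurable h) (hi : Integrable h d.P')
    (A : Set e.Ω) : ∫ ω in A, |h (e.g ω)| ∂e.P ≤ ∫ ω, |h ω| ∂d.P' := by
  rw [← comp_int e h hm]
  exact setIntegral_le_integral (comp_integrable e h hi).abs
    (Eventually.of_forall fun ω => abs_nonneg _)

theorem hF_set (L L'' p : ℕ) (j : Fin d.k → Fin d.n) (δ : ℝ) (hδ : 0 < δ) (A : Set e.Ω) :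
    ∫ ω in A, |hF d L L'' p j (e.g ω)| ∂e.P ≤
      δ / 2 + 1 / (2 * δ) * ∫ ω, hF d L L'' p j ω ^ 2 ∂d.P' := by
  have hi : Integrable (hF d L L'' p j) d.P' :=
    integrable_bdd (hF_meas d L L'' p j) 2 (hF_abs d L L'' p j)
  have hi2 : Integrable (fun ω => hF d L L'' p j ω ^ 2) d.P' :=
    integrable_bdd ((hF_meas d L L'' p j).pow_const 2) 4 (hF_sq_abs d L L'' p j)
  refine (set_comp_le e _ (hF_meas d L L'' p j) hi A).trans ?_
  refine (int_abs_le _ δ hδ hi hi2).trans (le_of_eq ?_)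
  ring

theorem E2_le (hul : T_UL) (L : ℕ) (δ : ℝ) (hδ : 0 < δ)
    (hL : ∀ L'' : ℕ, L ≤ L'' → ∀ j : Fin d.k → Fin d.n, ul d.U (fun m => avgP d.W m fun p =>
      ∫ ω, (Av d.T' d.W L (d.FF p j) ω - Av d.T' d.W L'' (d.FF p j) ω) ^ 2 ∂d.P') ≤ δ ^ 2)
    (A : Set e.Ω) : E2 e L A ≤ ((d.n : ℝ) ^ d.k) * δ := by
  have hb : ∀ L'' p (j : Fin d.k → Fin d.n),
      |∫ ω in A, |hF d L L'' p j (e.g ω)| ∂e.P| ≤ 2 := fun L'' p j =>
    int_abs_C e.P _ 2 (fun ω => by rw [abs_abs]; exact hF_abs d L L'' p j _) A (by norm_num)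
  have hb2 : ∀ L'' p (j : Fin d.k → Fin d.n), |∫ ω, hF d L L'' p j ω ^ 2 ∂d.P'| ≤ 4 := by
    intro L'' p j
    have h := int_abs_C d.P' _ 4 (fun ω => hF_sq_abs d L L'' p j ω) Set.univ (by norm_num)
    rwa [setIntegral_univ] at h
  have hj : ∀ j : Fin d.k → Fin d.n, ul (hyperfilter ℕ) (fun L'' => ul d.U fun m =>
      avgP d.W m fun p => ∫ ω in A, |hF d L L'' p j (e.g ω)| ∂e.P) ≤ δ := by
    intro j
    refine ul_le_c hul _ _ 2 δ (fun L'' => ?_) ?_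
    · exact ul_abs hul _ _ 2 fun m => avgP_abs _ _ _ 2 (by norm_num) fun p => hb L'' p j
    · have h1 : ∀ᶠ L'' in atTop, L ≤ L'' := eventually_ge_atTop L
      have h2 : ((hyperfilter ℕ : Ultrafilter ℕ) : Filter ℕ) ≤ atTop := by
        have := hyperfilter_le_cofinite (α := ℕ)
        rwa [Nat.cofinite_eq_atTop] at this
      filter_upwards [h2 h1] with L'' hL''
      obtain ⟨-, hmono, hadd, hmul, hconst⟩ := hul d.U
      have hsq : ∀ m, |avgP d.W m fun p => ∫ ω, hF d L L'' p j ω ^ 2 ∂d.P'| ≤ 4 := fun m =>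
        avgP_abs _ _ _ 4 (by norm_num) fun p => hb2 L'' p j
      have hsq' : ∀ m, |1 / (2 * δ) * avgP d.W m fun p => ∫ ω, hF d L L'' p j ω ^ 2 ∂d.P'| ≤
          1 / (2 * δ) * 4 := fun m => by
        rw [abs_mul, abs_of_pos (show (0 : ℝ) < 1 / (2 * δ) by positivity)]
        exact mul_le_mul_of_nonneg_left (hsq m) (by positivity)
      have h3 : ul d.U (fun m => avgP d.W m fun p => ∫ ω in A, |hF d L L'' p j (e.g ω)| ∂e.P) ≤
          ul d.U (fun m => δ / 2 + 1 / (2 * δ) *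
            avgP d.W m fun p => ∫ ω, hF d L L'' p j ω ^ 2 ∂d.P') := by
        refine hmono _ _ ⟨2, fun m => avgP_abs _ _ _ 2 (by norm_num) fun p => hb L'' p j⟩
          ⟨δ / 2 + 1 / (2 * δ) * 4, fun m => ?_⟩ (Eventually.of_forall fun m => ?_)
        · refine (abs_add_le _ _).trans (add_le_add ?_ (hsq' m))
          rw [abs_of_pos (by positivity)]
        · exact avgP_affine _ _ _ _ _ _ (by positivity) fun p => hF_set e L L'' p j δ hδ A
      have h4 : ul d.U (fun m => δ / 2 + 1 / (2 * δ) *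
            avgP d.W m fun p => ∫ ω, hF d L L'' p j ω ^ 2 ∂d.P') =
          δ / 2 + 1 / (2 * δ) *
            ul d.U (fun m => avgP d.W m fun p => ∫ ω, hF d L L'' p j ω ^ 2 ∂d.P') := by
        rw [hadd (fun _ => δ / 2) _ ⟨|δ / 2|, fun _ => le_refl _⟩ ⟨_, hsq'⟩, hconst,
          hmul _ _ ⟨4, hsq⟩]
      rw [h4] at h3
      refine h3.trans ?_
      have h5 : ul d.U (fun m => avgP d.W m fun p => ∫ ω, hF d L L'' p j ω ^ 2 ∂d.P') ≤ δ ^ 2 :=
        hL L'' hL'' j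
      calc δ / 2 + 1 / (2 * δ) *
            ul d.U (fun m => avgP d.W m fun p => ∫ ω, hF d L L'' p j ω ^ 2 ∂d.P')
          ≤ δ / 2 + 1 / (2 * δ) * δ ^ 2 :=
            add_le_add (le_refl _) (mul_le_mul_of_nonneg_left h5 (by positivity))
        _ = δ := by field_simp; ring
  calc E2 e L A ≤ ∑ _j : Fin d.k → Fin d.n, δ := Finset.sum_le_sum fun j _ => hj j
    _ = ((d.n : ℝ) ^ d.k) * δ := by
        rw [Finset.sum_const, card_univ, Fintype.card_fun, Fintype.card_fin, Fintype.card_fin,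
          nsmul_eq_mul, Nat.cast_pow]

theorem mv_eq (l : ℕ) : e.mv l = Set.indicator {ω | e.s (e.T^[d.W * l] ω) ≠ e.s ω}
    (fun _ => (1 : ℝ)) := by
  classical
  funext ω
  unfold SwE.mv
  by_cases h : e.s (e.T^[d.W * l] ω) = e.s ω
  · rw [if_pos h, Set.indicator_of_notMem]
    exact fun h' => h' h
  · rw [if_neg h, Set.indicator_of_mem]
    exact h

theorem mv_set_meas (l : ℕ) : MeasurableSet {ω | e.s (e.T^[d.W * l] ω) ≠ e.s ω} := by
  have h : MeasurableSet {ω | e.s (e.T^[d.W * l] ω) = e.s ω} :=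
    measurableSet_eq_fun (e.sm.comp (iter_meas e _)) e.sm
  exact h.compl

theorem mv_meas (l : ℕ) : Measurable (e.mv l) := by
  rw [mv_eq]
  exact measurable_const.indicator (mv_set_meas e l)

theorem mv_nn (l : ℕ) (ω : e.Ω) : 0 ≤ e.mv l ω := by
  unfold SwE.mv; split_ifs <;> norm_num

theorem mv_le (l : ℕ) (ω : e.Ω) : e.mv l ω ≤ 1 := by
  unfold SwE.mv; split_ifs <;> norm_num

theorem mv_int (l : ℕ) : Integrable (e.mv l) e.P :=
  integrable_bdd (mv_meas e l) 1 fun ω => by rw [abs_of_nonneg (mv_nn e l ω)]; exact mv_le e l ω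

theorem mv_integral (l : ℕ) : ∫ ω, e.mv l ω ∂e.P =
    e.P.real {ω | e.s (e.T^[d.W * l] ω) ≠ e.s ω} := by
  rw [mv_eq, integral_indicator_const _ (mv_set_meas e l), smul_eq_mul, mul_one]

theorem mv_set (l : ℕ) (A : Set e.Ω) (η : ℝ)
    (h : e.P.real {ω | e.s (e.T^[d.W * l] ω) ≠ e.s ω} ≤ η) : ∫ ω in A, e.mv l ω ∂e.P ≤ η := by
  refine le_trans ?_ ((mv_integral e l).le.trans h)
  exact setIntegral_le_integral (mv_int e l) (Eventually.of_forall fun ω => mv_nn e l ω)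

theorem mean_mv (N : ℕ) (hN : 0 < N) (c : ℝ) (hc : 0 ≤ c) (f : ℕ → ℝ) (η : ℝ)
    (h : ∀ l ∈ range N, f l ≤ η) : c / (N : ℝ) * ∑ l ∈ range N, f l ≤ c * η := by
  have hN' : (0 : ℝ) < N := by exact_mod_cast hN
  calc c / (N : ℝ) * ∑ l ∈ range N, f l ≤ c / (N : ℝ) * ∑ l ∈ range N, η :=
        mul_le_mul_of_nonneg_left (Finset.sum_le_sum h) (by positivity)
    _ = c * η := by
        rw [Finset.sum_const, card_range, nsmul_eq_mul]
        field_simp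

end extension

theorem Dlt_pos {k : ℕ} (β : Fin k → ℕ) : 0 < Dlt β := by
  unfold Dlt
  refine Finset.prod_pos fun i _ => Finset.prod_pos fun j _ => ?_
  split_ifs with h
  · exact Nat.one_pos
  · have h1 : ((β i : ℤ) - β j) ≠ 0 := by
      intro h2
      exact h (by omega)
    exact Int.natAbs_pos.2 h1

section last

variable {d : Sw} (e : SwE d) (yl : Fin d.k → e.Ω → ℝ)

theorem gl_meas (hy : Tup yl) (b : Fin d.n) (i : Fin d.k) : Measurable (gl e yl b i) := by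
  unfold gl SwE.yb
  exact (hy.1 i).mul (((d.hy b).1 i).comp e.fac.1.measurable)

theorem gl_abs (hy : Tup yl) (b : Fin d.n) (i : Fin d.k) (ω : e.Ω) : |gl e yl b i ω| ≤ 1 := by
  unfold gl SwE.yb
  rcases hy.2 i ω with h | h <;> rcases (d.hy b).2 i (e.g ω) with h' | h' <;> rw [h, h'] <;>
    norm_num

theorem gl_int (hy : Tup yl) (L : ℕ) (b : Fin d.n) (i : Fin d.k) : Integrable (fun ω =>
    Av e.T (d.W * Dlt d.β) L (gl e yl b i) ω - Av e.T d.W L (gl e yl b i) ω) e.P :=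
  (integrable_bdd (Av_meas _ _ _ _ (gl_meas e yl hy b i)) 1
    (Av_abs _ _ _ _ (gl_abs e yl hy b i))).sub
    (integrable_bdd (Av_meas _ _ _ _ (gl_meas e yl hy b i)) 1
    (Av_abs _ _ _ _ (gl_abs e yl hy b i)))

theorem gl_set (hy : Tup yl) (L : ℕ) (b : Fin d.n) (i : Fin d.k) (A : Set e.Ω) :
    ∫ ω in A, |Av e.T (d.W * Dlt d.β) L (gl e yl b i) ω - Av e.T d.W L (gl e yl b i) ω| ∂e.P ≤
    ∫ ω, |Av e.T (d.W * Dlt d.β) L (gl e yl b i) ω - Av e.T d.W L (gl e yl b i) ω| ∂e.P :=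
  setIntegral_le_integral (gl_int e yl hy L b i).abs
    (Eventually.of_forall fun ω => abs_nonneg _)

/-- the errors of the pairs -/
theorem E4_le (hy : Tup yl) (η : ℝ) (hη : 0 < η) (L₂ L₁ : ℕ) (hL₂ : 0 < L₂)
    (hD : Dlt d.β / (L₂ : ℝ) ≤ η) (h1 : Dlt d.β * L₂ ≤ L₁) (h2 : L₂ ≤ L₁) (h3 : Dlt d.β ≤ L₁)
    (hmv : ∀ l ≤ L₁, e.P.real {ω | e.s (e.T^[d.W * l] ω) ≠ e.s ω} ≤ η) (i : Fin d.k)
    (A : Set e.Ω) : E4 e yl L₂ i A ≤ 4 * η + ∑ b, ∫ ω, |Av e.T (d.W * Dlt d.β) L₂ (gl e yl b i) ω -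
      Av e.T d.W L₂ (gl e yl b i) ω| ∂e.P := by
  have hX1 : 1 / (L₂ : ℝ) * ∑ l ∈ range L₂, ∫ ω in A, e.mv (Dlt d.β * l) ω ∂e.P ≤ 1 * η :=
    mean_mv L₂ hL₂ _ (by norm_num) _ _ fun l hl => mv_set e _ A η (hmv _ (by
      have h4 := Finset.mem_range.1 hl
      have h5 : Dlt d.β * l ≤ Dlt d.β * L₂ := Nat.mul_le_mul_left _ h4.le
      omega))
  have hX2 : 1 / (L₂ : ℝ) * ∑ l ∈ range L₂, ∫ ω in A, e.mv l ω ∂e.P ≤ 1 * η :=
    mean_mv L₂ hL₂ _ (by norm_num) _ _ fun l hl => mv_set e _ A η (hmv _ (by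
      have h4 := Finset.mem_range.1 hl
      omega))
  have hX3 : 1 / (Dlt d.β : ℝ) * ∑ r ∈ range (Dlt d.β), ∫ ω in A, e.mv r ω ∂e.P ≤ 1 * η :=
    mean_mv _ (Dlt_pos d.β) _ (by norm_num) _ _ fun l hl => mv_set e _ A η (hmv _ (by
      have h4 := Finset.mem_range.1 hl
      omega))
  have hX4 : Dlt d.β / (L₂ : ℝ) * e.P.real A ≤ η := by
    have h6 : e.P.real A ≤ 1 := measureReal_le_one
    have h7 : 0 ≤ Dlt d.β / (L₂ : ℝ) := by positivity
    exact (mul_le_of_le_one_right h7 h6).trans hD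
  have hX5 : ∑ b, ∫ ω in A, |Av e.T (d.W * Dlt d.β) L₂ (gl e yl b i) ω -
      Av e.T d.W L₂ (gl e yl b i) ω| ∂e.P ≤ ∑ b, ∫ ω, |Av e.T (d.W * Dlt d.β) L₂ (gl e yl b i) ω -
      Av e.T d.W L₂ (gl e yl b i) ω| ∂e.P :=
    Finset.sum_le_sum fun b _ => gl_set e yl hy L₂ b i A
  unfold E4
  linarith

end last

theorem pf_S6 (hul : T_UL) (hme : T_ME) (_hna : T_NA) (h1 : T_S1) : T_S6 := by
  intro d η L₂ hη hw hL₂ hDL
  have _ := hme
  set δ : ℝ := η / ((d.n : ℝ) ^ d.k + 1) with hδ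
  have hnk : (0 : ℝ) < (d.n : ℝ) ^ d.k + 1 := by positivity
  have hδ0 : 0 < δ := by positivity
  obtain ⟨L, hL0, hL⟩ := h1 d (δ ^ 2) (by positivity)
  have hD := Dlt_pos d.β
  refine ⟨L, L + Dlt d.β * L₂ + L₂ + Dlt d.β + 1, hL0,
    fun e yl hy hmv hsum => ⟨fun A hA => ?_, ?_⟩⟩
  · have hk : (0 : ℝ) ≤ d.k := Nat.cast_nonneg _
    have hX1 : 2 * d.k / (L : ℝ) * ∑ l ∈ range L, ∫ ω in A, e.mv l ω ∂e.P ≤ 2 * d.k * η :=
      mean_mv L hL0 _ (by positivity) _ _ fun l hl => mv_set e l A η (hmv l (by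
        have := Finset.mem_range.1 hl
        omega))
    have hX2 : E2 e L A ≤ η := by
      refine (E2_le e hul L δ hδ0 hL A).trans ?_
      rw [hδ, mul_div_assoc', div_le_iff₀ hnk]
      nlinarith
    have hX3' : ∑ i, E4 e yl L₂ i A ≤ 4 * d.k * η + η := by
      calc ∑ i, E4 e yl L₂ i A ≤
            ∑ i : Fin d.k, (4 * η + ∑ b, ∫ ω, |Av e.T (d.W * Dlt d.β) L₂ (gl e yl b i) ω -
              Av e.T d.W L₂ (gl e yl b i) ω| ∂e.P) :=
            Finset.sum_le_sum fun i _ => E4_le e yl hy η hη L₂ _ hL₂ hDL (by omega) (by omega)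
              (by omega) hmv i A
        _ = d.k * (4 * η) + ∑ i, ∑ b, ∫ ω, |Av e.T (d.W * Dlt d.β) L₂ (gl e yl b i) ω -
              Av e.T d.W L₂ (gl e yl b i) ω| ∂e.P := by
            rw [Finset.sum_add_distrib, Finset.sum_const, card_univ, Fintype.card_fin,
              nsmul_eq_mul]
        _ = d.k * (4 * η) + ∑ b, ∑ i, ∫ ω, |Av e.T (d.W * Dlt d.β) L₂ (gl e yl b i) ω -
              Av e.T d.W L₂ (gl e yl b i) ω| ∂e.P := by
            rw [Finset.sum_comm]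
        _ ≤ 4 * d.k * η + η := by linarith
    have hX3'' : d.k * ∑ i, E4 e yl L₂ i A ≤ d.k * (4 * d.k * η + η) :=
      mul_le_mul_of_nonneg_left hX3' hk
    have hX4 : (d.k : ℝ) ^ 2 / d.w * e.P.real A ≤ η := by
      have h6 : e.P.real A ≤ 1 := measureReal_le_one
      have h7 : 0 ≤ (d.k : ℝ) ^ 2 / d.w := by positivity
      exact (mul_le_of_le_one_right h7 h6).trans hw
    unfold EL
    nlinarith [mul_nonneg hk hη.le, mul_nonneg (mul_nonneg hk hk) hη.le]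
  · have hk : (0 : ℝ) ≤ d.k := Nat.cast_nonneg _
    have hnn : 0 ≤ᵐ[e.P] e.P[e.mv 1 | Inv e.T d.W] :=
      condExp_nonneg (Eventually.of_forall fun ω => mv_nn e 1 ω)
    have hnn' : 0 ≤ᵐ[e.P] fun ω => (d.k : ℝ) * (e.P[e.mv 1 | Inv e.T d.W]) ω := by
      filter_upwards [hnn] with ω hω
      exact mul_nonneg hk hω
    have hmar := mul_meas_ge_le_integral_of_nonneg hnn' (integrable_condExp.const_mul _)
      (1 / 100)
    rw [integral_const_mul, integral_condExp (invle e), mv_integral] at hmar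
    have h8 := hmv 1 (by omega)
    have h9 : e.P.real {ω | 1 / 100 < (d.k : ℝ) * (e.P[e.mv 1 | Inv e.T d.W]) ω} ≤
        e.P.real {ω | 1 / 100 ≤ (d.k : ℝ) * (e.P[e.mv 1 | Inv e.T d.W]) ω} :=
      measureReal_mono (by
        intro ω hω
        rw [Set.mem_ofPred_eq] at hω ⊢
        exact hω.le)
    have h10 : (d.k : ℝ) * e.P.real {ω | e.s (e.T^[d.W * 1] ω) ≠ e.s ω} ≤ d.k * η :=
      mul_le_mul_of_nonneg_left h8 hk
    linarith

end Pool.Agent.H66.SG.S6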